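import Mathlib

set_option autoImplicit false

/-! # MP_bacbeb_nt: the orbits of the numbers `2^a 3^b 5^c` under the average of `φ` and the Dedekind function -/

namespace Pool.Agent.Results.MP_bacbeb_nt.FiveSmoothH13

open Finset

/-- the Dedekind function `∏ p^(a-1) (p+1)` over the prime powers `p^a` exactly dividing `n` -/
noncomputable def psi (n : ℕ) : ℕ := ∏ p ∈ n.primeFactors, p ^ (n.factorization p - 1) * (p + 1)

/-- the average of Euler's function and the Dedekind function -/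
noncomputable def f (n : ℕ) : ℕ := (Nat.totient n + psi n) / 2

/-- the orbit of `n` meets the orbit of `1488` -/
def Meets (n : ℕ) : Prop := ∃ j k : ℕ, f^[j] n = f^[k] 1488

/-- the orbit of `n` reaches `1` or a prime power (and is constant from there on) -/
def Stops (n : ℕ) : Prop := ∃ j : ℕ, f^[j] n = 1 ∨ IsPrimePow (f^[j] n)

/-- the exponents `(a, b, c)` for which the orbit of `2^a 3^b 5^c` meets the orbit of `1488` -/
def Cond (a b c : ℕ) : Prop :=
  (c = 0 ∧ b = 1 ∧ 4 ≤ a) ∨ (c = 0 ∧ 1 ≤ a ∧ 2 ≤ b ∧ 5 ≤ a + b) ∨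
    (c = 1 ∧ 1 ≤ a ∧ 4 ≤ a + 2 * b) ∨ (c = 1 ∧ a = 0 ∧ 2 ≤ b) ∨
    (2 ≤ c ∧ Odd c ∧ 1 ≤ a) ∨ (2 ≤ c ∧ Even c ∧ a = 0 ∧ 1 ≤ b)

/-! ### multiplicativity -/

theorem psi_mul {m n : ℕ} (h : m.Coprime n) : psi (m * n) = psi m * psi n := by
  unfold psi
  rw [h.primeFactors_mul, Finset.prod_union h.disjoint_primeFactors]
  congr 1
  · apply Finset.prod_congr rfl
    intro p hp
    rw [Nat.factorization_eq_of_coprime_left h (by simpa using hp)]
  · apply Finset.prod_congr rfl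
    intro p hp
    rw [Nat.factorization_eq_of_coprime_right h (by simpa using hp)]

theorem psi_pow {p : ℕ} (hp : p.Prime) (k : ℕ) : psi (p ^ (k + 1)) = p ^ k * (p + 1) := by
  unfold psi
  rw [Nat.primeFactors_prime_pow (Nat.succ_ne_zero k) hp, Finset.prod_singleton, hp.factorization_pow]
  simp

theorem psi_prime {p : ℕ} (hp : p.Prime) : psi p = p + 1 := by
  have := psi_pow hp 0
  simpa using this

theorem psi_one : psi 1 = 1 := by simp [psi]

theorem S1 (a b m t : ℕ) (hm : m.Coprime 6) (h : m.totient + 6 * psi m = t) :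
    f (2 ^ (a + 1) * 3 ^ (b + 1) * m) = 2 ^ a * 3 ^ b * t := by
  have c2 : m.Coprime 2 := Nat.Coprime.coprime_dvd_right (by norm_num) hm
  have c3 : m.Coprime 3 := Nat.Coprime.coprime_dvd_right (by norm_num) hm
  have h23 : (2 ^ (a + 1)).Coprime (3 ^ (b + 1)) := Nat.Coprime.pow _ _ (by norm_num)
  have hA : (2 ^ (a + 1) * 3 ^ (b + 1)).Coprime m :=
    Nat.Coprime.mul_left (c2.symm.pow_left _) (c3.symm.pow_left _)
  have e1 : (2 ^ (a + 1) * 3 ^ (b + 1) * m).totient = 2 ^ a * (3 ^ b * 2) * m.totient := by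
    rw [Nat.totient_mul hA, Nat.totient_mul h23, Nat.totient_prime_pow_succ Nat.prime_two,
      Nat.totient_prime_pow_succ Nat.prime_three]
    norm_num
  have e2 : psi (2 ^ (a + 1) * 3 ^ (b + 1) * m) = 2 ^ a * 3 * (3 ^ b * 4) * psi m := by
    rw [psi_mul hA, psi_mul h23, psi_pow Nat.prime_two, psi_pow Nat.prime_three]
  unfold f
  rw [e1, e2, ← h]
  have h3 : 2 ^ a * (3 ^ b * 2) * m.totient + 2 ^ a * 3 * (3 ^ b * 4) * psi m =
      2 * (2 ^ a * 3 ^ b * (m.totient + 6 * psi m)) := by ring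
  rw [h3, Nat.mul_div_cancel_left _ (by norm_num)]

theorem S2 (a m t : ℕ) (hm : m.Coprime 2) (h : m.totient + 3 * psi m = 2 * t) :
    f (2 ^ (a + 1) * m) = 2 ^ a * t := by
  have hA : (2 ^ (a + 1)).Coprime m := hm.symm.pow_left _
  have e1 : (2 ^ (a + 1) * m).totient = 2 ^ a * m.totient := by
    rw [Nat.totient_mul hA, Nat.totient_prime_pow_succ Nat.prime_two]
    norm_num
  have e2 : psi (2 ^ (a + 1) * m) = 2 ^ a * 3 * psi m := by
    rw [psi_mul hA, psi_pow Nat.prime_two]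
  unfold f
  rw [e1, e2]
  have h3 : 2 ^ a * m.totient + 2 ^ a * 3 * psi m = 2 * (2 ^ a * t) := by
    have : 2 ^ a * m.totient + 2 ^ a * 3 * psi m = 2 ^ a * (m.totient + 3 * psi m) := by ring
    rw [this, h]
    ring
  rw [h3, Nat.mul_div_cancel_left _ (by norm_num)]

theorem S3 (b m t : ℕ) (hm : m.Coprime 3) (h : m.totient + 2 * psi m = t) :
    f (3 ^ (b + 1) * m) = 3 ^ b * t := by
  have hA : (3 ^ (b + 1)).Coprime m := hm.symm.pow_left _
  have e1 : (3 ^ (b + 1) * m).totient = 3 ^ b * 2 * m.totient := by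
    rw [Nat.totient_mul hA, Nat.totient_prime_pow_succ Nat.prime_three]
  have e2 : psi (3 ^ (b + 1) * m) = 3 ^ b * 4 * psi m := by
    rw [psi_mul hA, psi_pow Nat.prime_three]
  unfold f
  rw [e1, e2, ← h]
  have h3 : 3 ^ b * 2 * m.totient + 3 ^ b * 4 * psi m = 2 * (3 ^ b * (m.totient + 2 * psi m)) := by ring
  rw [h3, Nat.mul_div_cancel_left _ (by norm_num)]

/-! ### reaching -/

/-- `m` is in the orbit of `n` -/
def R (n m : ℕ) : Prop := ∃ j : ℕ, f^[j] n = m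

theorem R.trans {n m k : ℕ} (h1 : R n m) (h2 : R m k) : R n k := by
  obtain ⟨i, hi⟩ := h1
  obtain ⟨j, hj⟩ := h2
  exact ⟨j + i, by rw [Function.iterate_add_apply, hi, hj]⟩

theorem R.refl (n : ℕ) : R n n := ⟨0, rfl⟩

theorem R.meets {n m : ℕ} (h1 : R n m) (h2 : Meets m) : Meets n := by
  obtain ⟨i, hi⟩ := h1
  obtain ⟨j, k, hj⟩ := h2
  exact ⟨j + i, k, by rw [Function.iterate_add_apply, hi, hj]⟩

theorem R.stops {n m : ℕ} (h1 : R n m) (h2 : Stops m) : Stops n := by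
  obtain ⟨i, hi⟩ := h1
  obtain ⟨j, hj⟩ := h2
  exact ⟨j + i, by rw [Function.iterate_add_apply, hi]; exact hj⟩

theorem st1 (a b m t : ℕ) {n n' : ℕ} (hm : m.Coprime 6) (h : m.totient + 6 * psi m = t)
    (hn : n = 2 ^ (a + 1) * 3 ^ (b + 1) * m) (hn' : n' = 2 ^ a * 3 ^ b * t) : R n n' :=
  ⟨1, by rw [hn, hn', Function.iterate_one, S1 a b m t hm h]⟩

theorem st2 (a m t : ℕ) {n n' : ℕ} (hm : m.Coprime 2) (h : m.totient + 3 * psi m = 2 * t)
    (hn : n = 2 ^ (a + 1) * m) (hn' : n' = 2 ^ a * t) : R n n' :=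
  ⟨1, by rw [hn, hn', Function.iterate_one, S2 a m t hm h]⟩

theorem st3 (b m t : ℕ) {n n' : ℕ} (hm : m.Coprime 3) (h : m.totient + 2 * psi m = t)
    (hn : n = 3 ^ (b + 1) * m) (hn' : n' = 3 ^ b * t) : R n n' :=
  ⟨1, by rw [hn, hn', Function.iterate_one, S3 b m t hm h]⟩

/-- a step at `2^(a+1) 3^(b+1) p` -/
theorem p1 (a b p : ℕ) {n n' : ℕ} (hp : p.Prime) (hm : p.Coprime 6)
    (hn : n = 2 ^ (a + 1) * 3 ^ (b + 1) * p) (hn' : n' = 2 ^ a * 3 ^ b * (7 * p + 5)) : R n n' :=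
  st1 a b p (7 * p + 5) hm (by rw [Nat.totient_prime hp, psi_prime hp]; have := hp.one_lt; omega) hn hn'

theorem p2 (a p : ℕ) {n n' : ℕ} (hp : p.Prime) (hm : p.Coprime 2)
    (hn : n = 2 ^ (a + 1) * p) (hn' : n' = 2 ^ a * (2 * p + 1)) : R n n' :=
  st2 a p (2 * p + 1) hm (by rw [Nat.totient_prime hp, psi_prime hp]; have := hp.one_lt; omega) hn hn'

theorem p3 (b p : ℕ) {n n' : ℕ} (hp : p.Prime) (hm : p.Coprime 3)
    (hn : n = 3 ^ (b + 1) * p) (hn' : n' = 3 ^ b * (3 * p + 1)) : R n n' :=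
  st3 b p (3 * p + 1) hm (by rw [Nat.totient_prime hp, psi_prime hp]; have := hp.one_lt; omega) hn hn'

/-- a step at `2^(a+1) 3^(b+1)` -/
theorem q1 (a b : ℕ) {n n' : ℕ} (hn : n = 2 ^ (a + 1) * 3 ^ (b + 1)) (hn' : n' = 2 ^ a * 3 ^ b * 7) :
    R n n' :=
  st1 a b 1 7 (by norm_num) (by rw [psi_one, Nat.totient_one]) (by rw [hn, mul_one]) hn'

/-- a step at `2^(a+1) 3^(b+1) 49` -/
theorem q49 (a b : ℕ) {n n' : ℕ} (hn : n = 2 ^ (a + 1) * 3 ^ (b + 1) * 49) (hn' : n' = 2 ^ a * 3 ^ b * 378) :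
    R n n' := by
  have h7 : Nat.Prime 7 := by norm_num
  have e1 : Nat.totient 49 = 42 := by
    have := Nat.totient_prime_pow_succ h7 1
    norm_num at this
    exact this
  have e2 : psi 49 = 56 := by
    have := psi_pow h7 1
    norm_num at this
    exact this
  exact st1 a b 49 378 (by norm_num) (by rw [e1, e2]) hn hn'

theorem tp {p q : ℕ} (hp : p.Prime) (hq : q.Prime) (h : p ≠ q) :
    (p * q).totient = (p - 1) * (q - 1) ∧ psi (p * q) = (p + 1) * (q + 1) := by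
  have hc : p.Coprime q := (Nat.coprime_primes hp hq).2 h
  rw [Nat.totient_mul hc, psi_mul hc, Nat.totient_prime hp, Nat.totient_prime hq, psi_prime hp,
    psi_prime hq]
  exact ⟨rfl, rfl⟩

theorem q95 (a : ℕ) {n n' : ℕ} (hn : n = 2 ^ (a + 1) * 95) (hn' : n' = 2 ^ a * 216) : R n n' := by
  have h := tp (p := 5) (q := 19) (by norm_num) (by norm_num) (by norm_num)
  norm_num at h
  exact st2 a 95 216 (by norm_num) (by rw [h.1, h.2]) hn hn'

theorem f95 : f 95 = 96 := by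
  have h := tp (p := 5) (q := 19) (by norm_num) (by norm_num) (by norm_num)
  norm_num at h
  unfold f
  rw [h.1, h.2]

theorem q335 (a : ℕ) {n n' : ℕ} (hn : n = 2 ^ (a + 1) * 335) (hn' : n' = 2 ^ a * 744) : R n n' := by
  have h := tp (p := 5) (q := 67) (by norm_num) (by norm_num) (by norm_num)
  norm_num at h
  exact st2 a 335 744 (by norm_num) (by rw [h.1, h.2]) hn hn'

/-! ### the orbit of 1488 -/

theorem dbl (k : ℕ) : R (2 ^ k * 1488) (2 ^ (k + 1) * 1488) := by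
  have s1 : R (2 ^ k * 1488) (2 ^ (k + 4) * 3 * 37) :=
    p1 (k + 3) 0 31 (by norm_num) (by norm_num) (by ring) (by ring)
  have s2 : R (2 ^ (k + 4) * 3 * 37) (2 ^ (k + 6) * 3 * 11) :=
    p1 (k + 3) 0 37 (by norm_num) (by norm_num) (by ring) (by ring)
  have s3 : R (2 ^ (k + 6) * 3 * 11) (2 ^ (k + 6) * 41) :=
    p1 (k + 5) 0 11 (by norm_num) (by norm_num) (by ring) (by ring)
  have s4 : R (2 ^ (k + 6) * 41) (2 ^ (k + 5) * 83) :=
    p2 (k + 5) 41 (by norm_num) (by norm_num) (by ring) (by ring)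
  have s5 : R (2 ^ (k + 5) * 83) (2 ^ (k + 4) * 167) :=
    p2 (k + 4) 83 (by norm_num) (by norm_num) (by ring) (by ring)
  have s6 : R (2 ^ (k + 4) * 167) (2 ^ (k + 3) * 335) :=
    p2 (k + 3) 167 (by norm_num) (by norm_num) (by ring) (by ring)
  have s7 : R (2 ^ (k + 3) * 335) (2 ^ (k + 1) * 1488) :=
    q335 (k + 2) (by ring) (by ring)
  exact s1.trans (s2.trans (s3.trans (s4.trans (s5.trans (s6.trans s7)))))

theorem orb (k : ℕ) : R 1488 (2 ^ k * 1488) := by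
  induction k with
  | zero => simpa using R.refl 1488
  | succ k ih => exact ih.trans (dbl k)

theorem meets_dbl (k : ℕ) : Meets (2 ^ k * 1488) := by
  obtain ⟨j, hj⟩ := orb k
  exact ⟨0, j, by rw [hj]; rfl⟩

/-! ### phase one -/

theorem phase1 (a b : ℕ) : R (2 ^ (a + 1) * 3 ^ (b + 2)) (2 * 3 ^ (a + b + 2)) := by
  induction a generalizing b with
  | zero =>
    have : 2 ^ (0 + 1) * 3 ^ (b + 2) = 2 * 3 ^ (0 + b + 2) := by ring
    rw [this]
    exact R.refl _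
  | succ a ih =>
    have s1 : R (2 ^ (a + 1 + 1) * 3 ^ (b + 2)) (2 ^ (a + 1) * 3 ^ (b + 1) * 7) :=
      q1 (a + 1) (b + 1) (by ring) (by ring)
    have s2 : R (2 ^ (a + 1) * 3 ^ (b + 1) * 7) (2 ^ (a + 1) * 3 ^ (b + 1 + 2)) :=
      p1 a b 7 (by norm_num) (by norm_num) (by ring) (by ring)
    have s3 := ih (b + 1)
    have e : a + 1 + b + 2 = a + (b + 1) + 2 := by ring
    rw [e]
    exact s1.trans (s2.trans s3)

/-! ### phase two -/

theorem enter (c : ℕ) : R (2 * 3 ^ (c + 5)) (2 ^ 3 * 3 ^ (c + 1) * 43) := by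
  have s1 : R (2 * 3 ^ (c + 5)) (3 ^ (c + 4) * 7) := q1 0 (c + 4) (by ring) (by ring)
  have s2 : R (3 ^ (c + 4) * 7) (2 * 3 ^ (c + 3) * 11) :=
    p3 (c + 3) 7 (by norm_num) (by norm_num) (by ring) (by ring)
  have s3 : R (2 * 3 ^ (c + 3) * 11) (2 * 3 ^ (c + 2) * 41) :=
    p1 0 (c + 2) 11 (by norm_num) (by norm_num) (by ring) (by ring)
  have s4 : R (2 * 3 ^ (c + 2) * 41) (2 ^ 2 * 3 ^ (c + 1) * 73) :=
    p1 0 (c + 1) 41 (by norm_num) (by norm_num) (by ring) (by ring)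
  have s5 : R (2 ^ 2 * 3 ^ (c + 1) * 73) (2 ^ 3 * 3 ^ (c + 1) * 43) :=
    p1 1 c 73 (by norm_num) (by norm_num) (by ring) (by ring)
  exact s1.trans (s2.trans (s3.trans (s4.trans s5)))

theorem to31 (x y : ℕ) : R (2 ^ (x + 1) * 3 ^ (y + 1) * 43) (2 ^ (x + 2) * 3 ^ (y + 1) * 31) := by
  have s1 : R (2 ^ (x + 1) * 3 ^ (y + 1) * 43) (2 ^ (x + 1) * 3 ^ (y + 2) * 17) :=
    p1 x y 43 (by norm_num) (by norm_num) (by ring) (by ring)
  have s2 : R (2 ^ (x + 1) * 3 ^ (y + 2) * 17) (2 ^ (x + 2) * 3 ^ (y + 1) * 31) :=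
    p1 x (y + 1) 17 (by norm_num) (by norm_num) (by ring) (by ring)
  exact s1.trans s2

theorem to73 (x y : ℕ) : R (2 ^ (x + 2) * 3 ^ (y + 2) * 31) (2 ^ (x + 5) * 3 ^ y * 73) := by
  have s1 : R (2 ^ (x + 2) * 3 ^ (y + 2) * 31) (2 ^ (x + 2) * 3 ^ (y + 2) * 37) :=
    p1 (x + 1) (y + 1) 31 (by norm_num) (by norm_num) (by ring) (by ring)
  have s2 : R (2 ^ (x + 2) * 3 ^ (y + 2) * 37) (2 ^ (x + 4) * 3 ^ (y + 2) * 11) :=
    p1 (x + 1) (y + 1) 37 (by norm_num) (by norm_num) (by ring) (by ring)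
  have s3 : R (2 ^ (x + 4) * 3 ^ (y + 2) * 11) (2 ^ (x + 4) * 3 ^ (y + 1) * 41) :=
    p1 (x + 3) (y + 1) 11 (by norm_num) (by norm_num) (by ring) (by ring)
  have s4 : R (2 ^ (x + 4) * 3 ^ (y + 1) * 41) (2 ^ (x + 5) * 3 ^ y * 73) :=
    p1 (x + 3) y 41 (by norm_num) (by norm_num) (by ring) (by ring)
  exact s1.trans (s2.trans (s3.trans s4))

theorem loop (x y : ℕ) : R (2 ^ (x + 1) * 3 ^ (y + 3) * 43) (2 ^ (x + 6) * 3 ^ (y + 1) * 43) := by
  have s1 := to31 x (y + 2)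
  have s2 := to73 x (y + 1)
  have s3 : R (2 ^ (x + 5) * 3 ^ (y + 1) * 73) (2 ^ (x + 6) * 3 ^ (y + 1) * 43) :=
    p1 (x + 4) y 73 (by norm_num) (by norm_num) (by ring) (by ring)
  exact s1.trans (s2.trans s3)

theorem leave (x : ℕ) : R (2 ^ (x + 1) * 3 ^ 2 * 43) (2 ^ 3 * 3 ^ (x + 4) * 43) := by
  have s1 := to31 x 1
  have s2 := to73 x 0
  have s3 : R (2 ^ (x + 5) * 3 ^ 0 * 73) (2 ^ (x + 4) * 147) :=
    p2 (x + 4) 73 (by norm_num) (by norm_num) (by ring) (by ring)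
  have s4 : R (2 ^ (x + 4) * 147) (2 ^ (x + 4) * 27 * 7) :=
    q49 (x + 3) 0 (by ring) (by ring)
  have s5 : R (2 ^ (x + 4) * 27 * 7) (2 ^ (x + 3 + 1) * 3 ^ (3 + 2)) :=
    p1 (x + 3) 2 7 (by norm_num) (by norm_num) (by ring) (by ring)
  have s6 := phase1 (x + 3) 3
  have e : x + 3 + 3 + 2 = x + 3 + 5 := by ring
  rw [e] at s6
  have s7 := enter (x + 3)
  exact s1.trans (s2.trans (s3.trans (s4.trans (s5.trans (s6.trans s7)))))

theorem odd_case (k x : ℕ) : Meets (2 ^ (x + 3) * 3 ^ (2 * k + 1) * 43) := by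
  induction k generalizing x with
  | zero =>
    have s1 := to31 (x + 2) 0
    have e : 2 ^ (x + 2 + 2) * 3 ^ (0 + 1) * 31 = 2 ^ x * 1488 := by ring
    rw [e] at s1
    exact s1.meets (meets_dbl x)
  | succ k ih =>
    have s1 := loop (x + 2) (2 * k)
    exact s1.meets (ih (x + 5))

theorem even_case (k x : ℕ) : R (2 ^ (x + 1) * 3 ^ (2 * k + 2) * 43) (2 ^ 3 * 3 ^ (x + 5 * k + 4) * 43) := by
  induction k generalizing x with
  | zero => exact leave x
  | succ k ih =>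
    have s1 := loop x (2 * k + 1)
    have s2 := ih (x + 5)
    have e : x + 5 + 5 * k + 4 = x + 5 * (k + 1) + 4 := by ring
    rw [e] at s2
    exact s1.trans s2

theorem meets43_aux (n y : ℕ) (hy : 1 ≤ y) (h : ¬ 2 ^ n ∣ 3 * y + 2) : Meets (2 ^ 3 * 3 ^ y * 43) := by
  induction n generalizing y with
  | zero => simp at h
  | succ n ih =>
    rcases Nat.even_or_odd' y with ⟨k, rfl | rfl⟩
    · obtain ⟨l, rfl⟩ : ∃ l, k = l + 1 := ⟨k - 1, by omega⟩
      have s := even_case l 2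
      have e : 2 * l + 2 = 2 * (l + 1) := by ring
      rw [e] at s
      refine s.meets (ih _ (by omega) ?_)
      intro hd
      apply h
      have e1 : 3 * (2 + 5 * l + 4) + 2 = 5 * (3 * l + 4) := by ring
      rw [e1] at hd
      have h2 : 2 ^ n ∣ 3 * l + 4 := by
        refine Nat.Coprime.dvd_of_dvd_mul_left ?_ hd
        exact Nat.Coprime.pow_left _ (by norm_num)
      have e2 : 3 * (2 * (l + 1)) + 2 = 2 * (3 * l + 4) := by ring
      rw [e2, pow_succ, mul_comm]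
      exact Nat.mul_dvd_mul_left 2 h2
    · exact odd_case k 0

theorem meets43 (y : ℕ) (hy : 1 ≤ y) : Meets (2 ^ 3 * 3 ^ y * 43) := by
  apply meets43_aux (3 * y + 2) y hy
  intro h
  have h1 := Nat.le_of_dvd (by omega) h
  have h2 : 3 * y + 2 < 2 ^ (3 * y + 2) := Nat.lt_two_pow_self
  omega

theorem meets_two_three (s : ℕ) : Meets (2 * 3 ^ (s + 4)) := by
  rcases Nat.eq_zero_or_pos s with rfl | hs
  · have s1 : R (2 * 3 ^ (0 + 4)) (3 ^ 3 * 7) := q1 0 3 (by norm_num) (by norm_num)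
    have s2 : R (3 ^ 3 * 7) (2 * 3 ^ 2 * 11) := p3 2 7 (by norm_num) (by norm_num) (by norm_num) (by norm_num)
    have s3 : R (2 * 3 ^ 2 * 11) (2 * 3 * 41) := p1 0 1 11 (by norm_num) (by norm_num) (by norm_num) (by norm_num)
    have s4 : R (2 * 3 * 41) (2 ^ 2 * 73) := p1 0 0 41 (by norm_num) (by norm_num) (by norm_num) (by norm_num)
    have s5 : R (2 ^ 2 * 73) (2 * 147) := p2 1 73 (by norm_num) (by norm_num) (by norm_num) (by norm_num)
    have s6 : R (2 * 147) (2 * 27 * 7) := q49 0 0 (by norm_num) (by norm_num)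
    have s7 : R (2 * 27 * 7) (2 * 3 ^ (0 + 5)) := p1 0 2 7 (by norm_num) (by norm_num) (by norm_num) (by norm_num)
    exact (s1.trans (s2.trans (s3.trans (s4.trans (s5.trans (s6.trans (s7.trans (enter 0)))))))).meets
      (meets43 1 le_rfl)
  · obtain ⟨c, rfl⟩ : ∃ c, s = c + 1 := ⟨s - 1, by omega⟩
    have e : c + 1 + 4 = c + 5 := by ring
    rw [e]
    exact (enter c).meets (meets43 (c + 1) (by omega))

theorem meetsA (a b : ℕ) (ha : 1 ≤ a) (hb : 2 ≤ b) (h : 5 ≤ a + b) : Meets (2 ^ a * 3 ^ b) := by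
  obtain ⟨a', rfl⟩ : ∃ x, a = x + 1 := ⟨a - 1, by omega⟩
  obtain ⟨b', rfl⟩ : ∃ x, b = x + 2 := ⟨b - 2, by omega⟩
  refine (phase1 a' b').meets ?_
  obtain ⟨s, hs⟩ : ∃ s, a' + b' + 2 = s + 4 := ⟨a' + b' + 2 - 4, by omega⟩
  rw [hs]
  exact meets_two_three s

theorem five_red (a : ℕ) : R (2 ^ (a + 5) * 5) (2 ^ (a + 3) * 3 ^ 3) := by
  have s1 : R (2 ^ (a + 5) * 5) (2 ^ (a + 4) * 11) := p2 (a + 4) 5 (by norm_num) (by norm_num) (by ring) (by ring)
  have s2 : R (2 ^ (a + 4) * 11) (2 ^ (a + 3) * 23) := p2 (a + 3) 11 (by norm_num) (by norm_num) (by ring) (by ring)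
  have s3 : R (2 ^ (a + 3) * 23) (2 ^ (a + 2) * 47) := p2 (a + 2) 23 (by norm_num) (by norm_num) (by ring) (by ring)
  have s4 : R (2 ^ (a + 2) * 47) (2 ^ (a + 1) * 95) := p2 (a + 1) 47 (by norm_num) (by norm_num) (by ring) (by ring)
  have s5 : R (2 ^ (a + 1) * 95) (2 ^ (a + 3) * 3 ^ 3) := q95 a (by ring) (by ring)
  exact s1.trans (s2.trans (s3.trans (s4.trans s5)))

theorem three_red (a : ℕ) : R (2 ^ (a + 3) * 3) (2 ^ (a + 3) * 5) := by
  have s1 : R (2 ^ (a + 3) * 3) (2 ^ (a + 2) * 7) := q1 (a + 2) 0 (by ring) (by ring)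
  have s2 : R (2 ^ (a + 2) * 7) (2 ^ (a + 1) * 3 * 5) := p2 (a + 1) 7 (by norm_num) (by norm_num) (by ring) (by ring)
  have s3 : R (2 ^ (a + 1) * 3 * 5) (2 ^ (a + 3) * 5) := p1 a 0 5 (by norm_num) (by norm_num) (by ring) (by ring)
  exact s1.trans (s2.trans s3)

theorem meets_five (a : ℕ) : Meets (2 ^ (a + 4) * 5) := by
  rcases Nat.eq_zero_or_pos a with rfl | ha
  · have s1 : R (2 ^ (0 + 4) * 5) (2 ^ 3 * 11) := p2 3 5 (by norm_num) (by norm_num) (by norm_num) (by norm_num)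
    have s2 : R (2 ^ 3 * 11) (2 ^ 2 * 23) := p2 2 11 (by norm_num) (by norm_num) (by norm_num) (by norm_num)
    have s3 : R (2 ^ 2 * 23) (2 * 47) := p2 1 23 (by norm_num) (by norm_num) (by norm_num) (by norm_num)
    have s4 : R (2 * 47) 95 := p2 0 47 (by norm_num) (by norm_num) (by norm_num) (by norm_num)
    have s5 : R 95 (2 ^ (2 + 3) * 3) := ⟨1, by rw [Function.iterate_one, f95]; norm_num⟩
    exact (s1.trans (s2.trans (s3.trans (s4.trans (s5.trans ((three_red 2).trans (five_red 0))))))).meets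
      (meetsA 3 3 (by norm_num) (by norm_num) (by norm_num))
  · obtain ⟨c, rfl⟩ : ∃ c, a = c + 1 := ⟨a - 1, by omega⟩
    have e : c + 1 + 4 = c + 5 := by ring
    rw [e]
    exact (five_red c).meets (meetsA (c + 3) 3 (by omega) (by norm_num) (by omega))

theorem meets_three (a : ℕ) : Meets (2 ^ (a + 4) * 3) :=
  (three_red (a + 1)).meets (meets_five a)

/-! ### powers of 5 -/

theorem t5 (c : ℕ) : (5 ^ (c + 1)).totient = 4 * 5 ^ c ∧ psi (5 ^ (c + 1)) = 6 * 5 ^ c := by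
  have h5 : Nat.Prime 5 := by norm_num
  rw [Nat.totient_prime_pow_succ h5, psi_pow h5]
  constructor <;> ring

theorem t115 (c : ℕ) : (11 * 5 ^ (c + 1)).totient = 40 * 5 ^ c ∧ psi (11 * 5 ^ (c + 1)) = 72 * 5 ^ c := by
  have hc : Nat.Coprime 11 (5 ^ (c + 1)) := Nat.Coprime.pow_right _ (by norm_num)
  have h11 : Nat.Prime 11 := by norm_num
  rw [Nat.totient_mul hc, psi_mul hc, (t5 c).1, (t5 c).2, Nat.totient_prime h11, psi_prime h11]
  constructor <;> ring

theorem elim3 (a b c : ℕ) : R (2 ^ (a + 1) * 3 ^ b * 5 ^ (c + 1)) (2 ^ (a + 1 + 2 * b) * 5 ^ (c + 1)) := by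
  induction b generalizing a with
  | zero =>
    have e : 2 ^ (a + 1) * 3 ^ 0 * 5 ^ (c + 1) = 2 ^ (a + 1 + 2 * 0) * 5 ^ (c + 1) := by ring
    rw [e]
    exact R.refl _
  | succ b ih =>
    have s1 : R (2 ^ (a + 1) * 3 ^ (b + 1) * 5 ^ (c + 1)) (2 ^ (a + 2 + 1) * 3 ^ b * 5 ^ (c + 1)) :=
      st1 a b (5 ^ (c + 1)) (40 * 5 ^ c) (Nat.Coprime.pow_left _ (by norm_num))
        (by rw [(t5 c).1, (t5 c).2]; ring) rfl (by ring)
    have s2 := ih (a + 2)
    have e : a + 2 + 1 + 2 * b = a + 1 + 2 * (b + 1) := by ring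
    rw [e] at s2
    exact s1.trans s2

theorem elim5 (x c : ℕ) : R (2 ^ (x + 2) * 5 ^ (c + 2)) (2 ^ (x + 7) * 5 ^ c) := by
  have s1 : R (2 ^ (x + 2) * 5 ^ (c + 2)) (2 ^ (x + 1) * (11 * 5 ^ (c + 1))) :=
    st2 (x + 1) (5 ^ (c + 2)) (11 * 5 ^ (c + 1)) (Nat.Coprime.pow_left _ (by norm_num))
      (by rw [(t5 (c + 1)).1, (t5 (c + 1)).2]; ring) rfl rfl
  have s2 : R (2 ^ (x + 1) * (11 * 5 ^ (c + 1))) (2 ^ (x + 7) * 5 ^ c) :=
    st2 x (11 * 5 ^ (c + 1)) (128 * 5 ^ c)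
      (Nat.Coprime.mul_left (by norm_num) (Nat.Coprime.pow_left _ (by norm_num)))
      (by rw [(t115 c).1, (t115 c).2]; ring) rfl (by ring)
  exact s1.trans s2

theorem elim5k (x c k : ℕ) : R (2 ^ (x + 2) * 5 ^ (c + 2 * k)) (2 ^ (x + 2 + 5 * k) * 5 ^ c) := by
  induction k generalizing x with
  | zero => exact R.refl _
  | succ k ih =>
    have s1 := elim5 x (c + 2 * k)
    have s2 := ih (x + 5)
    have e1 : c + 2 * k + 2 = c + 2 * (k + 1) := by ring
    have e2 : x + 5 + 2 + 5 * k = x + 2 + 5 * (k + 1) := by ring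
    rw [e1] at s1
    rw [e2] at s2
    exact s1.trans s2

theorem odd_start (b c : ℕ) : R (3 ^ (b + 1) * 5 ^ (c + 1)) (2 ^ 4 * 3 ^ b * 5 ^ c) :=
  st3 b (5 ^ (c + 1)) (16 * 5 ^ c) (Nat.Coprime.pow_left _ (by norm_num))
    (by rw [(t5 c).1, (t5 c).2]; ring) rfl (by ring)

/-- the even numbers `2^a 3^b 5^c`, `c` odd -/
theorem meetsC (a b k : ℕ) (ha : 1 ≤ a) (h : 2 ≤ a + 2 * b) (h4 : 4 ≤ a + 2 * b + 5 * k) :
    Meets (2 ^ a * 3 ^ b * 5 ^ (2 * k + 1)) := by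
  obtain ⟨a', rfl⟩ : ∃ x, a = x + 1 := ⟨a - 1, by omega⟩
  refine (elim3 a' b (2 * k)).meets ?_
  obtain ⟨x, hx⟩ : ∃ x, a' + 1 + 2 * b = x + 2 := ⟨a' + 1 + 2 * b - 2, by omega⟩
  have s := elim5k x 1 k
  have e : 1 + 2 * k = 2 * k + 1 := by ring
  rw [e] at s
  rw [hx]
  refine s.meets ?_
  obtain ⟨z, hz⟩ : ∃ z, x + 2 + 5 * k = z + 4 := ⟨x + 2 + 5 * k - 4, by omega⟩
  rw [hz, pow_one]
  exact meets_five z

theorem stops_pow (p k : ℕ) (hp : p.Prime) (hk : 1 ≤ k) : Stops (p ^ k) :=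
  ⟨0, Or.inr ((isPrimePow_nat_iff _).2 ⟨p, k, hp, hk, rfl⟩)⟩

theorem stops_prime (p : ℕ) (hp : p.Prime) : Stops p := by
  have := stops_pow p 1 hp le_rfl
  simpa using this

/-- the even numbers `2^a 3^b 5^c`, `c ≥ 2` even -/
theorem stopsC (a b k : ℕ) (ha : 1 ≤ a) (h : 2 ≤ a + 2 * b) (hk : 1 ≤ k) :
    Stops (2 ^ a * 3 ^ b * 5 ^ (2 * k)) := by
  obtain ⟨a', rfl⟩ : ∃ x, a = x + 1 := ⟨a - 1, by omega⟩
  obtain ⟨k', rfl⟩ : ∃ x, k = x + 1 := ⟨k - 1, by omega⟩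
  have s0 := elim3 a' b (2 * k' + 1)
  have e0 : 2 * k' + 1 + 1 = 2 * (k' + 1) := by ring
  rw [e0] at s0
  refine s0.stops ?_
  obtain ⟨x, hx⟩ : ∃ x, a' + 1 + 2 * b = x + 2 := ⟨a' + 1 + 2 * b - 2, by omega⟩
  have s := elim5k x 0 (k' + 1)
  have e : 0 + 2 * (k' + 1) = 2 * (k' + 1) := by ring
  rw [e] at s
  rw [hx]
  refine s.stops ?_
  rw [pow_zero, mul_one]
  exact stops_pow 2 _ Nat.prime_two (by omega)

/-! ### the small exceptions -/

theorem st23 : Stops (2 * 11) :=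
  (p2 0 11 (n' := 23) (by norm_num) (by norm_num) (by norm_num) (by norm_num)).stops
    (stops_prime 23 (by norm_num))

theorem st40 : Stops (2 ^ 3 * 5) := by
  have s1 : R (2 ^ 3 * 5) (2 ^ 2 * 11) := p2 2 5 (by norm_num) (by norm_num) (by norm_num) (by norm_num)
  have s2 : R (2 ^ 2 * 11) (2 * 23) := p2 1 11 (by norm_num) (by norm_num) (by norm_num) (by norm_num)
  have s3 : R (2 * 23) 47 := p2 0 23 (by norm_num) (by norm_num) (by norm_num) (by norm_num)
  exact (s1.trans (s2.trans s3)).stops (stops_prime 47 (by norm_num))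

theorem st54 : Stops (2 * 3 ^ 3) := by
  have s1 : R (2 * 3 ^ 3) (3 ^ 2 * 7) := q1 0 2 (by norm_num) (by norm_num)
  have s2 : R (3 ^ 2 * 7) (2 * 3 * 11) := p3 1 7 (by norm_num) (by norm_num) (by norm_num) (by norm_num)
  have s3 : R (2 * 3 * 11) (2 * 41) := p1 0 0 11 (by norm_num) (by norm_num) (by norm_num) (by norm_num)
  have s4 : R (2 * 41) 83 := p2 0 41 (by norm_num) (by norm_num) (by norm_num) (by norm_num)
  exact (s1.trans (s2.trans (s3.trans s4))).stops (stops_prime 83 (by norm_num))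

theorem st18 : Stops (2 * 3 ^ 2) := by
  have s1 : R (2 * 3 ^ 2) (3 * 7) := q1 0 1 (by norm_num) (by norm_num)
  have s2 : R (3 * 7) (2 * 11) := p3 0 7 (by norm_num) (by norm_num) (by norm_num) (by norm_num)
  exact (s1.trans s2).stops st23

theorem st36 : Stops (2 ^ 2 * 3 ^ 2) := by
  have s1 := phase1 1 0
  exact s1.stops st54

theorem st6 : Stops (2 * 3) :=
  (q1 0 0 (n' := 7) (by norm_num) (by norm_num)).stops (stops_prime 7 (by norm_num))

theorem st12 : Stops (2 ^ 2 * 3) := by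
  have s1 : R (2 ^ 2 * 3) (2 * 7) := q1 1 0 (by norm_num) (by norm_num)
  have s2 : R (2 * 7) (3 * 5) := p2 0 7 (by norm_num) (by norm_num) (by norm_num) (by norm_num)
  have s3 : R (3 * 5) (2 ^ 4) := p3 0 5 (by norm_num) (by norm_num) (by norm_num) (by norm_num)
  exact (s1.trans (s2.trans s3)).stops (stops_pow 2 4 Nat.prime_two (by norm_num))

theorem st24 : Stops (2 ^ 3 * 3) := (three_red 0).stops st40

theorem st10 : Stops (2 * 5) :=
  (p2 0 5 (n' := 11) (by norm_num) (by norm_num) (by norm_num) (by norm_num)).stops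
    (stops_prime 11 (by norm_num))

theorem st20 : Stops (2 ^ 2 * 5) :=
  (p2 1 5 (n' := 2 * 11) (by norm_num) (by norm_num) (by norm_num) (by norm_num)).stops st23

/-! ### an orbit which meets that of 1488 does not stop -/

theorem f_one : f 1 = 1 := by
  unfold f
  rw [psi_one, Nat.totient_one]

theorem f_pow {p : ℕ} (hp : p.Prime) (k : ℕ) : f (p ^ (k + 1)) = p ^ (k + 1) := by
  unfold f
  rw [psi_pow hp, Nat.totient_prime_pow_succ hp]
  obtain ⟨q, rfl⟩ : ∃ q, p = q + 1 := ⟨p - 1, by have := hp.one_lt; omega⟩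
  have h : (q + 1) ^ k * (q + 1 - 1) + (q + 1) ^ k * (q + 1 + 1) = 2 * (q + 1) ^ (k + 1) := by
    rw [Nat.add_sub_cancel]
    ring
  rw [h, Nat.mul_div_cancel_left _ (by norm_num)]

theorem fixed {q : ℕ} (h : q = 1 ∨ IsPrimePow q) : f q = q := by
  rcases h with rfl | h
  · exact f_one
  · obtain ⟨p, k, hp, hk, rfl⟩ := (isPrimePow_nat_iff _).1 h
    obtain ⟨l, rfl⟩ : ∃ l, k = l + 1 := ⟨k - 1, by omega⟩
    exact f_pow hp l

theorem not_stops {n : ℕ} (h : Meets n) : ¬ Stops n := by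
  rintro ⟨j, hj⟩
  obtain ⟨i, k, hik⟩ := h
  set q := f^[j] n with hq
  have hfix : ∀ t : ℕ, f^[t] q = q := fun t => Function.iterate_fixed (fixed hj) t
  have h1 : f^[j + k] 1488 = q := by
    rw [Function.iterate_add_apply, ← hik, ← Function.iterate_add_apply, add_comm,
      Function.iterate_add_apply, ← hq, hfix]
  have h2 : ∀ N : ℕ, f^[N] 1488 ≤ ∑ t ∈ range (j + k + 1), f^[t] 1488 := by
    intro N
    rcases le_or_gt N (j + k) with hN | hN
    · exact Finset.single_le_sum (f := fun t => f^[t] 1488) (fun _ _ => Nat.zero_le _)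
        (mem_range.2 (by omega))
    · have e : N = (N - (j + k)) + (j + k) := by omega
      rw [e, Function.iterate_add_apply, h1, hfix, ← h1]
      exact Finset.single_le_sum (f := fun t => f^[t] 1488) (fun _ _ => Nat.zero_le _)
        (mem_range.2 (by omega))
  set B := ∑ t ∈ range (j + k + 1), f^[t] 1488 with hB
  obtain ⟨N, hN⟩ := orb B
  have h3 := h2 N
  rw [hN] at h3
  have h4 : B < 2 ^ B := Nat.lt_two_pow_self
  omega

/-! ### the classification -/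

theorem meets_of_cond (a b c : ℕ) (hx : ¬ (a = 1 ∧ b = 0 ∧ 2 ≤ c)) (h : Cond a b c) :
    Meets (2 ^ a * 3 ^ b * 5 ^ c) := by
  rcases h with ⟨rfl, rfl, h⟩ | ⟨rfl, h1, h2, h3⟩ | ⟨rfl, h1, h2⟩ | ⟨rfl, rfl, h⟩ | ⟨h1, ⟨k, rfl⟩, h2⟩ |
    ⟨h1, ⟨k, rfl⟩, rfl, h2⟩
  · obtain ⟨z, rfl⟩ : ∃ z, a = z + 4 := ⟨a - 4, by omega⟩
    have := meets_three z
    simpa using this
  · have := meetsA a b h1 h2 h3
    simpa using this
  · have := meetsC a b 0 h1 (by omega) (by omega)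
    simpa using this
  · obtain ⟨z, rfl⟩ : ∃ z, b = z + 1 := ⟨b - 1, by omega⟩
    have e : 2 ^ 0 * 3 ^ (z + 1) * 5 ^ 1 = 3 ^ (z + 1) * 5 ^ (0 + 1) := by ring
    rw [e]
    refine (odd_start z 0).meets ?_
    rw [pow_zero, mul_one]
    rcases Nat.lt_or_ge z 2 with hz | hz
    · have : z = 1 := by omega
      subst this
      have := meets_three 0
      simpa using this
    · exact meetsA 4 z (by norm_num) hz (by omega)
  · exact meetsC a b k h2 (by omega) (by omega)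
  · obtain ⟨z, rfl⟩ : ∃ z, b = z + 1 := ⟨b - 1, by omega⟩
    obtain ⟨l, rfl⟩ : ∃ l, k = l + 1 := ⟨k - 1, by omega⟩
    have e : 2 ^ 0 * 3 ^ (z + 1) * 5 ^ (l + 1 + (l + 1)) = 3 ^ (z + 1) * 5 ^ (2 * l + 1 + 1) := by ring
    rw [e]
    refine (odd_start z (2 * l + 1)).meets ?_
    exact meetsC 4 z l (by norm_num) (by omega) (by omega)

theorem stops_of_not_cond (a b c : ℕ) (hx : ¬ (a = 1 ∧ b = 0 ∧ 2 ≤ c)) (h : ¬ Cond a b c) :
    Stops (2 ^ a * 3 ^ b * 5 ^ c) := by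
  unfold Cond at h
  simp only [not_or, not_and] at h
  obtain ⟨h1, h2, h3, h4, h5, h6⟩ := h
  rcases Nat.eq_zero_or_pos a with rfl | ha
  · rcases Nat.eq_zero_or_pos b with rfl | hb
    · rcases Nat.eq_zero_or_pos c with rfl | hc
      · exact ⟨0, Or.inl (by simp)⟩
      · have := stops_pow 5 c (by norm_num) hc
        simpa using this
    · obtain ⟨z, rfl⟩ : ∃ z, b = z + 1 := ⟨b - 1, by omega⟩
      rcases Nat.eq_zero_or_pos c with rfl | hc
      · have := stops_pow 3 (z + 1) (by norm_num) hb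
        simpa using this
      · rcases Nat.lt_or_ge c 2 with hc2 | hc2
        · have : c = 1 := by omega
          subst this
          have hz : z = 0 := by
            have := h4 rfl rfl
            omega
          subst hz
          have s : R (2 ^ 0 * 3 ^ (0 + 1) * 5 ^ 1) (2 ^ 4) := by
            have := odd_start 0 0
            simpa using this
          exact s.stops (stops_pow 2 4 Nat.prime_two (by norm_num))
        · rcases Nat.even_or_odd c with he | ho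
          · exact absurd hb (h6 hc2 he rfl)
          · obtain ⟨k, rfl⟩ := ho
            have e : 2 ^ 0 * 3 ^ (z + 1) * 5 ^ (2 * k + 1) = 3 ^ (z + 1) * 5 ^ (2 * k + 1) := by ring
            rw [e]
            exact (odd_start z (2 * k)).stops (stopsC 4 z k (by norm_num) (by omega) (by omega))
  · rcases Nat.eq_zero_or_pos c with rfl | hc
    · rcases Nat.eq_zero_or_pos b with rfl | hb
      · have := stops_pow 2 a Nat.prime_two ha
        simpa using this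
      · rcases Nat.lt_or_ge b 2 with hb2 | hb2
        · have hb1 : b = 1 := by omega
          subst hb1
          have := h1 rfl rfl
          have ha3 : a = 1 ∨ a = 2 ∨ a = 3 := by omega
          rcases ha3 with rfl | rfl | rfl
          · simpa using st6
          · simpa using st12
          · simpa using st24
        · have := h2 rfl ha hb2
          have h7 : (a = 1 ∧ b = 2) ∨ (a = 1 ∧ b = 3) ∨ (a = 2 ∧ b = 2) := by omega
          rcases h7 with ⟨rfl, rfl⟩ | ⟨rfl, rfl⟩ | ⟨rfl, rfl⟩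
          · simpa using st18
          · simpa using st54
          · simpa using st36
    · rcases Nat.lt_or_ge c 2 with hc2 | hc2
      · have hc1 : c = 1 := by omega
        subst hc1
        have := h3 rfl ha
        have h7 : (a = 1 ∧ b = 0) ∨ (a = 2 ∧ b = 0) ∨ (a = 3 ∧ b = 0) ∨ (a = 1 ∧ b = 1) := by omega
        rcases h7 with ⟨rfl, rfl⟩ | ⟨rfl, rfl⟩ | ⟨rfl, rfl⟩ | ⟨rfl, rfl⟩
        · simpa using st10
        · simpa using st20
        · simpa using st40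
        · have s := elim3 0 1 0
          exact s.stops (by simpa using st40)
      · rcases Nat.even_or_odd' c with ⟨k, rfl | rfl⟩
        · exact stopsC a b k ha (by omega) (by omega)
        · exact absurd ha (h5 hc2 ⟨k, rfl⟩)

/-- For every `n₀ = 2^a 3^b 5^c` except `2 * 5^c`, `c ≥ 2`: the orbit of `n₀` meets the orbit of `1488`
if and only if `Cond a b c`, and it stops (reaches `1` or a prime power) if and only if not. -/
theorem result : ∀ a b c : ℕ, ¬ (a = 1 ∧ b = 0 ∧ 2 ≤ c) →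
    (Meets (2 ^ a * 3 ^ b * 5 ^ c) ↔ Cond a b c) ∧ (Stops (2 ^ a * 3 ^ b * 5 ^ c) ↔ ¬ Cond a b c) := by
  intro a b c hx
  by_cases h : Cond a b c
  · have h1 := meets_of_cond a b c hx h
    exact ⟨⟨fun _ => h, fun _ => h1⟩, ⟨fun h2 => absurd h2 (not_stops h1), fun h2 => absurd h h2⟩⟩
  · have h1 := stops_of_not_cond a b c hx h
    exact ⟨⟨fun h2 => absurd h1 (not_stops h2), fun h2 => absurd h2 h⟩, ⟨fun _ => h, fun _ => h1⟩⟩

end Pool.Agent.Results.MP_bacbeb_nt.FiveSmoothH13
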