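import Pool.Agent.E8helper66.PH.Cyc

/-!
# MP_bacbeb_nt: the orbits of `2 ^ a * 3 ^ b * m`
-/

set_option autoImplicit false

namespace Pool.Agent.Results.MP_bacbeb_nt.SmoothOrbitsH66

theorem result : ∀ f : ℕ → ℕ,
    (∀ n : ℕ, f n = (Nat.totient n +
      ∏ p ∈ n.primeFactors, p ^ (n.factorization p - 1) * (p + 1)) / 2) →
    ∀ a b m : ℕ, 1 ≤ a → 1 ≤ b →
      ((∃ c : ℕ, m = 7 ^ c) ∨ m ∈ ({11, 17, 31, 37, 41, 43, 73} : Finset ℕ)) →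
      ((∃ j k : ℕ, f^[j] (2 ^ a * 3 ^ b * m) = f^[k] 1488) ↔
        2 ^ a * 3 ^ b * m ∉ ({6, 12, 18, 24, 36, 42, 54, 66, 132} : Finset ℕ)) ∧
      (2 ^ a * 3 ^ b * m ∈ ({6, 12, 18, 24, 36, 42, 54, 66, 132} : Finset ℕ) →
        ∃ j : ℕ, IsPrimePow (f^[j] (2 ^ a * 3 ^ b * m))) := by
  intro f hf
  obtain rfl : f = Pool.Agent.E8helper66.PH.f := funext hf
  intro a b m ha hb hm
  refine ⟨⟨fun h hn => ?_, fun hn => ?_⟩, fun hn => ?_⟩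
  · obtain ⟨q, hq, hfq, -⟩ := Pool.Agent.E8helper66.PH.exc _ hn
    exact Pool.Agent.E8helper66.PH.not_good hq hfq h
  · exact Pool.Agent.E8helper66.PH.main a b m ha hb hm hn
  · obtain ⟨q, ⟨j, hj⟩, -, hp⟩ := Pool.Agent.E8helper66.PH.exc _ hn
    exact ⟨j, by rw [hj]; exact hp⟩

end Pool.Agent.Results.MP_bacbeb_nt.SmoothOrbitsH66
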